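import Mathlib

/-!
Evaluation of a wedge product: combinatorics of permutations (for the tasks V_DIV, V_LAM of helper15).
-/

set_option autoImplicit false

namespace Pool.Agent.T2h99.V15

open Equiv

/-- sums over a group of functions which are invariant under a subgroup and vanish outside a double
product -/
theorem sum_group {Γ A K : Type} [Group Γ] [Fintype Γ] [DecidableEq Γ] [Group A] [Fintype A]
    [Group K] [Fintype K] (ι : A →* Γ) (j : K →* Γ) :
    ∃ c : ℚ, c ≠ 0 ∧ ∀ G : Γ → ℚ, (∀ σ k, G (σ * j k) = G σ) →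
      (∀ σ, G σ ≠ 0 → ∃ a k, σ = ι a * j k) → ∑ σ, G σ = c * ∑ a, G (ι a) := by
  classical
  set F : Γ → Finset (A × K) := fun σ => Finset.univ.filter fun p => ι p.1 * j p.2 = σ with hF
  set N : ℕ := (F 1).card with hN
  have hNpos : 0 < N := by
    refine Finset.card_pos.2 ⟨(1, 1), ?_⟩
    simp [hF]
  have hfib : ∀ a k, (F (ι a * j k)).card = N := by
    intro a k
    refine Finset.card_bij' (fun p _ => (a⁻¹ * p.1, p.2 * k⁻¹)) (fun p _ => (a * p.1, p.2 * k))
      ?_ ?_ ?_ ?_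
    · intro p hp
      have h1 : ι p.1 * j p.2 = ι a * j k := (Finset.mem_filter.1 hp).2
      refine Finset.mem_filter.2 ⟨Finset.mem_univ _, ?_⟩
      simp only [map_mul, map_inv]
      calc (ι a)⁻¹ * ι p.1 * (j p.2 * (j k)⁻¹) = (ι a)⁻¹ * (ι p.1 * j p.2) * (j k)⁻¹ := by group
        _ = 1 := by rw [h1]; group
    · intro p hp
      have h1 : ι p.1 * j p.2 = 1 := (Finset.mem_filter.1 hp).2
      refine Finset.mem_filter.2 ⟨Finset.mem_univ _, ?_⟩
      simp only [map_mul]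
      calc ι a * ι p.1 * (j p.2 * j k) = ι a * (ι p.1 * j p.2) * j k := by group
        _ = ι a * j k := by rw [h1]; group
    · intro p _
      simp
    · intro p _
      simp
  have hN' : (N : ℚ) ≠ 0 := by exact_mod_cast hNpos.ne'
  have hK : (Fintype.card K : ℚ) ≠ 0 := by exact_mod_cast Fintype.card_ne_zero
  refine ⟨(Fintype.card K : ℚ) / N, div_ne_zero hK hN', fun G hG h0 => ?_⟩
  have h1 : ∑ p : A × K, G (ι p.1 * j p.2) = (Fintype.card K : ℚ) * ∑ a, G (ι a) := by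
    rw [Fintype.sum_prod_type, Finset.mul_sum]
    refine Finset.sum_congr rfl fun a _ => ?_
    simp only [hG, Finset.sum_const, Finset.card_univ, nsmul_eq_mul]
  have h2 : ∑ p : A × K, G (ι p.1 * j p.2) = (N : ℚ) * ∑ σ, G σ := by
    rw [← Finset.sum_fiberwise (s := Finset.univ) (g := fun p : A × K => ι p.1 * j p.2), Finset.mul_sum]
    refine Finset.sum_congr rfl fun σ _ => ?_
    have h3 : ∑ p ∈ Finset.univ.filter (fun p : A × K => ι p.1 * j p.2 = σ), G (ι p.1 * j p.2) =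
        ((F σ).card : ℚ) * G σ := by
      rw [Finset.sum_congr rfl fun p hp => by rw [(Finset.mem_filter.1 hp).2], Finset.sum_const,
        nsmul_eq_mul]
    rw [h3]
    by_cases hσ : G σ = 0
    · rw [hσ, mul_zero, mul_zero]
    · obtain ⟨a, k, rfl⟩ := h0 σ hσ
      rw [hfib]
  rw [h1] at h2
  field_simp
  linarith

variable {W : Type} [AddCommGroup W] [Module ℚ W]

section wedge

variable {κ κ' : Type} [Fintype κ] [DecidableEq κ] [Fintype κ'] [DecidableEq κ']

/-- the wedge product, as a sum over all permutations -/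
noncomputable def wdg (f : W [⋀^κ]→ₗ[ℚ] ℚ) (g : W [⋀^κ']→ₗ[ℚ] ℚ) : W [⋀^κ ⊕ κ']→ₗ[ℚ] ℚ :=
  MultilinearMap.alternatization ((LinearMap.mul' ℚ ℚ).compMultilinearMap
    (MultilinearMap.domCoprod f.toMultilinearMap g.toMultilinearMap))

theorem wdg_apply (f : W [⋀^κ]→ₗ[ℚ] ℚ) (g : W [⋀^κ']→ₗ[ℚ] ℚ) (v : κ ⊕ κ' → W) :
    wdg f g v = ∑ σ : Perm (κ ⊕ κ'), ((Perm.sign σ : ℤ) : ℚ) *
      (f (fun k => v (σ (Sum.inl k))) * g (fun k => v (σ (Sum.inr k)))) := by
  rw [wdg, MultilinearMap.alternatization_apply]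
  refine Finset.sum_congr rfl fun σ _ => ?_
  rw [MultilinearMap.domDomCongr_apply, Units.smul_def, zsmul_eq_mul]
  congr 1

end wedge

variable {κ M α β : Type} [Fintype κ] [DecidableEq κ] [Fintype M] [DecidableEq M] [Fintype α]
  [DecidableEq α] [Fintype β] [DecidableEq β]

/-- the permutations of the second summand -/
def io (e : κ ⊕ M ≃ α ⊕ β) : Perm β →* Perm (κ ⊕ M) where
  toFun ρ := (e.trans (Perm.sumCongr 1 ρ)).trans e.symm
  map_one' := by
    ext x
    simp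
  map_mul' ρ ρ' := by
    ext x
    simp only [Perm.coe_mul, Function.comp_apply, Equiv.trans_apply, Equiv.apply_symm_apply]
    congr 1
    have h : Perm.sumCongr (1 : Perm α) (ρ * ρ') = Perm.sumCongr 1 ρ * Perm.sumCongr 1 ρ' := by
      rw [Perm.sumCongr_mul, one_mul]
    rw [h]
    rfl

omit [Fintype κ] [DecidableEq κ] [Fintype M] [DecidableEq M] [Fintype α] [DecidableEq α]
  [Fintype β] [DecidableEq β] in
theorem io_apply (e : κ ⊕ M ≃ α ⊕ β) (ρ : Perm β) (x : κ ⊕ M) :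
    e (io e ρ x) = Perm.sumCongr 1 ρ (e x) := by
  show e (e.symm (Perm.sumCongr 1 ρ (e x))) = _
  rw [Equiv.apply_symm_apply]

theorem io_sign (e : κ ⊕ M ≃ α ⊕ β) (ρ : Perm β) : Perm.sign (io e ρ) = Perm.sign ρ := by
  have h : io e ρ = (e.symm.permCongr) (Perm.sumCongr 1 ρ) := by
    ext x
    rfl
  rw [h, Perm.sign_permCongr, Perm.sign_sumCongr]
  simp

/-- evaluation of a wedge product on families for which only few terms count -/
theorem wedge_eval (e : κ ⊕ M ≃ α ⊕ β) : ∃ c : ℚ, c ≠ 0 ∧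
    ∀ (f : W [⋀^κ]→ₗ[ℚ] ℚ) (g : W [⋀^M]→ₗ[ℚ] ℚ) (v : α ⊕ β → W),
    (∀ σ : Perm (κ ⊕ M), f (fun s => v (e (σ (Sum.inl s)))) ≠ 0 →
      ∃ ρ : Perm β, ∀ s, ∃ s' : κ, e (σ (Sum.inl s)) = Perm.sumCongr 1 ρ (e (Sum.inl s'))) →
    wdg f g (fun k => v (e k)) = c * ∑ ρ : Perm β, ((Perm.sign ρ : ℤ) : ℚ) *
      (f (fun s => v (Perm.sumCongr 1 ρ (e (Sum.inl s)))) *
        g (fun k => v (Perm.sumCongr 1 ρ (e (Sum.inr k))))) := by
  obtain ⟨c, hc, hmain⟩ := sum_group (io e) (Perm.sumCongrHom κ M)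
  refine ⟨c, hc, fun f g v hgood => ?_⟩
  have k1 : ∀ (σ : Perm (κ ⊕ M)) (k : Perm κ × Perm M),
      ((Perm.sign (σ * Perm.sumCongrHom κ M k) : ℤ) : ℚ) *
        (f (fun s => v (e ((σ * Perm.sumCongrHom κ M k) (Sum.inl s)))) *
          g (fun s => v (e ((σ * Perm.sumCongrHom κ M k) (Sum.inr s))))) =
      ((Perm.sign σ : ℤ) : ℚ) * (f (fun k => v (e (σ (Sum.inl k)))) *
        g (fun k => v (e (σ (Sum.inr k))))) := by
    rintro σ ⟨π, π'⟩
    simp only [Perm.sumCongrHom_apply, Perm.mul_apply, Perm.sumCongr_apply, Sum.map_inl, Sum.map_inr,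
      Perm.sign_mul, Perm.sign_sumCongr, Units.val_mul, Int.cast_mul]
    have e1 := f.map_perm (fun k => v (e (σ (Sum.inl k)))) π
    have e2 := g.map_perm (fun k => v (e (σ (Sum.inr k)))) π'
    have e1' : f (fun k => v (e (σ (Sum.inl (π k))))) = ((Perm.sign π : ℤ) : ℚ) *
        f (fun k => v (e (σ (Sum.inl k)))) := by
      rw [Units.smul_def, zsmul_eq_mul] at e1
      exact e1
    have e2' : g (fun k => v (e (σ (Sum.inr (π' k))))) = ((Perm.sign π' : ℤ) : ℚ) *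
        g (fun k => v (e (σ (Sum.inr k)))) := by
      rw [Units.smul_def, zsmul_eq_mul] at e2
      exact e2
    rw [e1', e2']
    have s1 : ((Perm.sign π : ℤ) : ℚ) * ((Perm.sign π : ℤ) : ℚ) = 1 := by
      exact_mod_cast Int.units_coe_mul_self (Perm.sign π)
    have s2 : ((Perm.sign π' : ℤ) : ℚ) * ((Perm.sign π' : ℤ) : ℚ) = 1 := by
      exact_mod_cast Int.units_coe_mul_self (Perm.sign π')
    linear_combination (((Perm.sign σ : ℤ) : ℚ) * f (fun k => v (e (σ (Sum.inl k)))) *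
      g (fun k => v (e (σ (Sum.inr k))))) * (((Perm.sign π' : ℤ) : ℚ) * ((Perm.sign π' : ℤ) : ℚ) * s1 + s2)
  have k2 : ∀ σ : Perm (κ ⊕ M), ((Perm.sign σ : ℤ) : ℚ) *
      (f (fun k => v (e (σ (Sum.inl k)))) * g (fun k => v (e (σ (Sum.inr k))))) ≠ 0 →
      ∃ (a : Perm β) (k : Perm κ × Perm M), σ = io e a * Perm.sumCongrHom κ M k := by
    intro σ hσ
    have h1 : f (fun s => v (e (σ (Sum.inl s)))) ≠ 0 := by
      intro h
      apply hσ
      simp only [h, zero_mul, mul_zero]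
    obtain ⟨ρ, hρ⟩ := hgood σ h1
    have h2 : (io e ρ)⁻¹ * σ ∈ (Perm.sumCongrHom κ M).range := by
      apply Perm.mem_sumCongrHom_range_of_perm_mapsTo_inl
      rintro _ ⟨s, rfl⟩
      obtain ⟨s', hs'⟩ := hρ s
      refine ⟨s', ?_⟩
      rw [Perm.mul_apply, eq_comm, Perm.inv_eq_iff_eq]
      apply e.injective
      rw [hs', io_apply]
    obtain ⟨k, hk⟩ := h2
    exact ⟨ρ, k, by rw [hk]; group⟩
  have h := hmain
    (fun σ : Perm (κ ⊕ M) => ((Perm.sign σ : ℤ) : ℚ) *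
      (f (fun k => v (e (σ (Sum.inl k)))) * g (fun k => v (e (σ (Sum.inr k)))))) k1 k2
  rw [wdg_apply, h]
  congr 1
  refine Finset.sum_congr rfl fun ρ _ => ?_
  simp only [io_apply, io_sign]

/-- permutations with two given values -/
theorem exists_perm_two {n : ℕ} (p q : Fin (n + 2)) (h : p ≠ q) :
    ∃ ρ : Perm (Fin (n + 2)), ρ 0 = p ∧ ρ 1 = q := by
  refine ⟨swap 0 p * swap 1 ((swap 0 p).symm q), ?_, ?_⟩
  · have h1 : (swap 0 p).symm q ≠ 0 := by
      intro h2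
      rw [Equiv.symm_apply_eq, swap_apply_left] at h2
      exact h h2.symm
    rw [Perm.mul_apply, swap_apply_of_ne_of_ne (by simp) (Ne.symm h1), swap_apply_left]
  · rw [Perm.mul_apply, swap_apply_left, Equiv.apply_symm_apply]

end Pool.Agent.T2h99.V15
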