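import Pool.Agent.N178.HX.StmE
import Pool.Agent.T2h99.V15.Comb

/-!
Products with classes of divisors and with linear forms (for the tasks V_DIV, V_LAM of helper15).
-/

set_option autoImplicit false

namespace Pool.Agent.T2h99.V15

open Module Equiv Pool.Agent.Y90 Pool.Agent.R915
open Pool.Agent.N178.HX (Cor)
open Pool.Agent.N178.HW (prodAV)
open Pool.Agent.H204R3.CM (IsHodge)

/-! ### homomorphisms -/

theorem hcomp {X Y W : AV} {f : X.H →ₗ[ℚ] Y.H} {g : Y.H →ₗ[ℚ] W.H} (hf : IsHom X Y f)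
    (hg : IsHom Y W g) : IsHom X W (g.comp f) := by
  obtain ⟨Ψ, hΨ⟩ := hf
  obtain ⟨Φ, hΦ⟩ := hg
  refine ⟨Φ.comp Ψ, fun v => ?_⟩
  rw [LinearMap.comp_apply, LinearMap.comp_apply, hΨ, hΦ]

theorem hadd {X Y : AV} {f g : X.H →ₗ[ℚ] Y.H} (hf : IsHom X Y f) (hg : IsHom X Y g) :
    IsHom X Y (f + g) := by
  obtain ⟨Ψ, hΨ⟩ := hf
  obtain ⟨Φ, hΦ⟩ := hg
  refine ⟨Ψ + Φ, fun v => ?_⟩
  rw [LinearMap.add_apply, LinearMap.add_apply, hΨ, hΦ, map_add]

/-- the first projection -/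
def p1 (X Y : AV) : (prodAV X Y).H →ₗ[ℚ] X.H := LinearMap.fst ℚ X.H Y.H
/-- the second projection -/
def p2 (X Y : AV) : (prodAV X Y).H →ₗ[ℚ] Y.H := LinearMap.snd ℚ X.H Y.H
/-- the first inclusion -/
def i1 (X Y : AV) : X.H →ₗ[ℚ] (prodAV X Y).H := LinearMap.inl ℚ X.H Y.H
/-- the second inclusion -/
def i2 (X Y : AV) : Y.H →ₗ[ℚ] (prodAV X Y).H := LinearMap.inr ℚ X.H Y.H

theorem hp1 (X Y : AV) : IsHom (prodAV X Y) X (p1 X Y) :=
  ⟨LinearMap.fst ℂ X.T Y.T, fun _ => rfl⟩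

theorem hp2 (X Y : AV) : IsHom (prodAV X Y) Y (p2 X Y) :=
  ⟨LinearMap.snd ℂ X.T Y.T, fun _ => rfl⟩

theorem hi1 (X Y : AV) : IsHom X (prodAV X Y) (i1 X Y) :=
  ⟨LinearMap.inl ℂ X.T Y.T, fun v => by
    change ((X.per v, 0) : X.T × Y.T) = (X.per v, Y.per 0)
    rw [map_zero]⟩

theorem hi2 (X Y : AV) : IsHom Y (prodAV X Y) (i2 X Y) :=
  ⟨LinearMap.inr ℂ X.T Y.T, fun v => by
    change ((0, Y.per v) : X.T × Y.T) = (X.per 0, Y.per v)
    rw [map_zero]⟩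

theorem p1i1 (X Y : AV) (x : X.H) : p1 X Y (i1 X Y x) = x := rfl
theorem p1i2 (X Y : AV) (y : Y.H) : p1 X Y (i2 X Y y) = 0 := rfl
theorem p2i1 (X Y : AV) (x : X.H) : p2 X Y (i1 X Y x) = 0 := rfl
theorem p2i2 (X Y : AV) (y : Y.H) : p2 X Y (i2 X Y y) = y := rfl

theorem sum12 (X Y : AV) (w : X.H × Y.H) : i1 X Y w.1 + i2 X Y w.2 = (w : (prodAV X Y).H) :=
  Prod.ext (add_zero w.1) (zero_add w.2)

theorem bij12 (X Y : AV) :
    Function.Bijective (fun w : X.H × Y.H => i1 X Y w.1 + i2 X Y w.2) := by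
  constructor
  · intro w w' h
    exact (sum12 X Y w).symm.trans (Eq.trans h (sum12 X Y w'))
  · intro y
    exact ⟨y, sum12 X Y y⟩

/-! ### alternating forms of degree two -/

theorem two_eq {W : Type} (v : Fin 2 → W) : v = ![v 0, v 1] := by
  funext j
  fin_cases j <;> rfl

theorem zero_left {W : Type} [AddCommGroup W] [Module ℚ W] (B : W [⋀^Fin 2]→ₗ[ℚ] ℚ) (v : Fin 2 → W)
    (s : Fin 2) (h : v s = 0) : B v = 0 := B.map_coord_zero s h

/-! ### divisor classes -/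

/-- `Fin 2 ⊕ (Fin n ⊕ Fin i) ≃ Fin n ⊕ Fin (i + 2)` -/
def eD (n i : ℕ) : Fin 2 ⊕ (Fin n ⊕ Fin i) ≃ Fin n ⊕ Fin (i + 2) where
  toFun := Sum.elim (fun s => Sum.inr (Fin.castLE (by omega) s))
    (Sum.elim (fun k => Sum.inl k) fun l => Sum.inr l.succ.succ)
  invFun := Sum.elim (fun k => Sum.inr (Sum.inl k))
    (Fin.cases (Sum.inl 0) (Fin.cases (Sum.inl 1) fun l => Sum.inr (Sum.inr l)))
  left_inv := by
    rintro (s | k | l)
    · fin_cases s <;> rfl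
    · rfl
    · rfl
  right_inv := by
    rintro (k | l)
    · rfl
    · refine Fin.cases ?_ (fun l => ?_) l
      · rfl
      · refine Fin.cases ?_ (fun l => ?_) l
        · rfl
        · rfl

theorem eD_0 (n i : ℕ) : eD n i (Sum.inl 0) = Sum.inr 0 := rfl
theorem eD_1 (n i : ℕ) : eD n i (Sum.inl 1) = Sum.inr 1 := rfl
theorem eD_l (n i : ℕ) (k : Fin n) : eD n i (Sum.inr (Sum.inl k)) = Sum.inl k := rfl
theorem eD_r (n i : ℕ) (l : Fin i) : eD n i (Sum.inr (Sum.inr l)) = Sum.inr l.succ.succ := rfl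

theorem div_gen (𝒜 : Sys) (X : AV) (n i : ℕ) (B : X.H [⋀^Fin 2]→ₗ[ℚ] ℚ) (hB : IsHodge X.per B)
    (Y P : AV) (a : Y.H →ₗ[ℚ] P.H) (b : X.H →ₗ[ℚ] P.H) (τ : P.H [⋀^Fin n ⊕ Fin i]→ₗ[ℚ] ℚ)
    (y : Fin n → Y.H) (ha : IsHom Y P a) (hb : IsHom X P b) (hτ : 𝒜.A P (Fin n ⊕ Fin i) τ)
    (g : X.H [⋀^Fin (i + 2)]→ₗ[ℚ] ℚ) (hg : ∀ x : Fin (i + 2) → X.H, g x =
      ∑ σ : Equiv.Perm (Fin (i + 2)), ((Equiv.Perm.sign σ : ℤ) : ℚ) *
        (B ![x (σ 0), x (σ 1)] *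
          τ (Sum.elim (fun k => a (y k)) fun l => b (x (σ l.succ.succ))))) :
    g ∈ Cor 𝒜 X n (i + 2) := by
  classical
  set Q := prodAV Y X with hQ
  set π : Q.H →ₗ[ℚ] P.H := a.comp (p1 Y X) + b.comp (p2 Y X) with hπ
  have hπh : IsHom Q P π := hadd (hcomp (hp1 Y X) ha) (hcomp (hp2 Y X) hb)
  set f2 : Q.H [⋀^Fin 2]→ₗ[ℚ] ℚ := B.compLinearMap (p2 Y X) with hf2
  set f' : Q.H [⋀^Fin n ⊕ Fin i]→ₗ[ℚ] ℚ := τ.compLinearMap π with hf'
  have A2 : 𝒜.A Q (Fin 2) f2 := 𝒜.pull (p2 Y X) (hp2 Y X) B (𝒜.divisor (by simp) B hB)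
  have A' : 𝒜.A Q (Fin n ⊕ Fin i) f' := 𝒜.pull π hπh τ hτ
  have AH : 𝒜.A Q (Fin 2 ⊕ (Fin n ⊕ Fin i)) (wdg f2 f') :=
    𝒜.cup f2 f' A2 A' (wdg f2 f') (fun v => wdg_apply f2 f' v)
  have AT : 𝒜.A Q (Fin n ⊕ Fin (i + 2)) ((wdg f2 f').domDomCongr (eD n i)) :=
    𝒜.reindex (eD n i) _ AH
  obtain ⟨c, hc, hmain⟩ := wedge_eval (W := Q.H) (eD n i)
  have key : ∀ x : Fin (i + 2) → X.H, (wdg f2 f').domDomCongr (eD n i)
      (Sum.elim (fun k => i1 Y X (y k)) fun l => i2 Y X (x l)) = c * g x := by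
    intro x
    set v : Fin n ⊕ Fin (i + 2) → Q.H := Sum.elim (fun k => i1 Y X (y k)) fun l => i2 Y X (x l)
      with hv
    have h := hmain f2 f' v (by
      intro σ hσ
      have h1 : ∀ s : Fin 2, ∃ p : Fin (i + 2), eD n i (σ (Sum.inl s)) = Sum.inr p := by
        intro s
        rcases hs : eD n i (σ (Sum.inl s)) with k | p
        · exfalso
          apply hσ
          rw [hf2, AlternatingMap.compLinearMap_apply]
          apply zero_left B _ s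
          show p2 Y X (v (eD n i (σ (Sum.inl s)))) = 0
          rw [hs]
          exact p2i1 Y X (y k)
        · exact ⟨p, rfl⟩
      obtain ⟨p, hp⟩ := h1 0
      obtain ⟨q, hq⟩ := h1 1
      have hpq : p ≠ q := by
        rintro rfl
        rw [← hq] at hp
        have := σ.injective ((eD n i).injective hp)
        simp at this
      obtain ⟨ρ, hρ0, hρ1⟩ := exists_perm_two p q hpq
      refine ⟨ρ, fun s => ⟨s, ?_⟩⟩
      fin_cases s
      · show eD n i (σ (Sum.inl 0)) = _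
        rw [hp, ← hρ0]
        rfl
      · show eD n i (σ (Sum.inl 1)) = _
        rw [hq, ← hρ1]
        rfl)
    have e1 : (wdg f2 f').domDomCongr (eD n i) v = wdg f2 f' (fun k => v (eD n i k)) := rfl
    rw [e1, h, hg x]
    congr 1
    refine Finset.sum_congr rfl fun ρ _ => ?_
    congr 1
    congr 1
    · rw [hf2, AlternatingMap.compLinearMap_apply]
      congr 1
      funext s
      fin_cases s
      · rfl
      · rfl
    · rw [hf', AlternatingMap.compLinearMap_apply]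
      congr 1
      funext k
      rcases k with k | l
      · show a (p1 Y X (i1 Y X (y k))) + b (p2 Y X (i1 Y X (y k))) = a (y k)
        rw [p1i1, p2i1, map_zero, add_zero]
      · show a (p1 Y X (i2 Y X (x (ρ l.succ.succ)))) + b (p2 Y X (i2 Y X (x (ρ l.succ.succ)))) =
          b (x (ρ l.succ.succ))
        rw [p1i2, p2i2, map_zero, zero_add]
  have h1 : c • g ∈ Cor 𝒜 X n (i + 2) := by
    refine Submodule.subset_span ⟨Y, Q, i1 Y X, i2 Y X, (wdg f2 f').domDomCongr (eD n i), y,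
      hi1 Y X, hi2 Y X, bij12 Y X, AT, fun x => ?_⟩
    rw [key x, AlternatingMap.smul_apply, smul_eq_mul]
  have h2 := Submodule.smul_mem _ c⁻¹ h1
  rwa [smul_smul, inv_mul_cancel₀ hc, one_smul] at h2

end Pool.Agent.T2h99.V15
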