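import Pool.Agent.Z15.V.Stm
import Pool.Agent.T2h94.Q15.WDG
import Pool.Agent.T2h99.V15.Core

/-!
Products with classes of divisors (task V_DIV of helper15).
-/

set_option autoImplicit false

namespace Pool.Agent.T2h99.V15

open Module Equiv Pool.Agent.Y90 Pool.Agent.R915
open Pool.Agent.N178.HX (Cor)
open Pool.Agent.H204R3.CM (IsHodge)
open Pool.Agent.T2h94.Q15 (ant ant_apply)

theorem t_V_DIV : Pool.Agent.Z15.V.V_DIV := by
  intro 𝒜 X n i f hf B hB g hg
  have hgf : g = ant B f := by
    ext x
    rw [hg, ant_apply]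
  rw [hgf]
  clear hg hgf g
  induction hf using Submodule.span_induction with
  | mem f hf =>
    obtain ⟨Y, P, a, b, τ, y, ha, hb, -, hτ, h⟩ := hf
    refine div_gen 𝒜 X n i B hB Y P a b τ y ha hb hτ _ fun x => ?_
    rw [ant_apply]
    refine Finset.sum_congr rfl fun σ _ => ?_
    rw [h]
  | zero =>
    have : ant B (0 : X.H [⋀^Fin i]→ₗ[ℚ] ℚ) = 0 := by
      ext x
      rw [ant_apply]
      simp
    rw [this]
    exact Submodule.zero_mem _
  | add f f' _ _ h1 h2 =>
    have : ant B (f + f') = ant B f + ant B f' := by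
      ext x
      rw [AlternatingMap.add_apply, ant_apply, ant_apply, ant_apply, ← Finset.sum_add_distrib]
      refine Finset.sum_congr rfl fun σ _ => ?_
      rw [AlternatingMap.add_apply]
      ring
    rw [this]
    exact Submodule.add_mem _ h1 h2
  | smul c f _ h1 =>
    have : ant B (c • f) = c • ant B f := by
      ext x
      rw [AlternatingMap.smul_apply, ant_apply, ant_apply, smul_eq_mul, Finset.mul_sum]
      refine Finset.sum_congr rfl fun σ _ => ?_
      rw [AlternatingMap.smul_apply, smul_eq_mul]
      ring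
    rw [this]
    exact Submodule.smul_mem _ _ h1

end Pool.Agent.T2h99.V15
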