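import Pool.Agent.T2h99.V15.Core

/-!
Products with linear forms (for the task V_LAM of helper15).
-/

set_option autoImplicit false

namespace Pool.Agent.T2h99.V15

open Module Equiv Pool.Agent.Y90 Pool.Agent.R915
open Pool.Agent.N178.HX (Cor)
open Pool.Agent.N178.HW (prodAV)
open Pool.Agent.H204R3.CM (IsHodge)

/-- `Fin 2 ⊕ (Fin n ⊕ Fin i) ≃ Fin (n + 1) ⊕ Fin (i + 1)` -/
def eL (n i : ℕ) : Fin 2 ⊕ (Fin n ⊕ Fin i) ≃ Fin (n + 1) ⊕ Fin (i + 1) where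
  toFun := Sum.elim (Fin.cases (Sum.inl 0) fun _ => Sum.inr 0)
    (Sum.elim (fun k => Sum.inl k.succ) fun l => Sum.inr l.succ)
  invFun := Sum.elim (Fin.cases (Sum.inl 0) fun k => Sum.inr (Sum.inl k))
    (Fin.cases (Sum.inl 1) fun l => Sum.inr (Sum.inr l))
  left_inv := by
    rintro (s | k | l)
    · fin_cases s <;> rfl
    · rfl
    · rfl
  right_inv := by
    rintro (k | l)
    · refine Fin.cases ?_ (fun k => ?_) k
      · rfl
      · rfl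
    · refine Fin.cases ?_ (fun l => ?_) l
      · rfl
      · rfl

theorem lam_gen (𝒜 : Sys) (X : AV) (n i : ℕ) (E2 : X.H [⋀^Fin 2]→ₗ[ℚ] ℚ) (hE2 : IsHodge X.per E2)
    (ω : X.H →ₗ[ℚ] X.H →ₗ[ℚ] ℚ) (hω : ∀ v : Fin 2 → X.H, E2 v = ω (v 0) (v 1)) (y0 : X.H)
    (Y P : AV) (a : Y.H →ₗ[ℚ] P.H) (b : X.H →ₗ[ℚ] P.H) (τ : P.H [⋀^Fin n ⊕ Fin i]→ₗ[ℚ] ℚ)
    (y : Fin n → Y.H) (ha : IsHom Y P a) (hb : IsHom X P b) (hτ : 𝒜.A P (Fin n ⊕ Fin i) τ)
    (g : X.H [⋀^Fin (i + 1)]→ₗ[ℚ] ℚ) (hg : ∀ x : Fin (i + 1) → X.H, g x =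
      ∑ σ : Equiv.Perm (Fin (i + 1)), ((Equiv.Perm.sign σ : ℤ) : ℚ) *
        (ω y0 (x (σ 0)) *
          τ (Sum.elim (fun k => a (y k)) fun l => b (x (σ l.succ))))) :
    g ∈ Cor 𝒜 X (n + 1) (i + 1) := by
  classical
  set Y' := prodAV X Y with hY'
  set Q := prodAV Y' X with hQ
  set q1 : Q.H →ₗ[ℚ] X.H := (p1 X Y).comp (p1 Y' X) with hq1
  set q2 : Q.H →ₗ[ℚ] Y.H := (p2 X Y).comp (p1 Y' X) with hq2
  set q3 : Q.H →ₗ[ℚ] X.H := p2 Y' X with hq3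
  have h1 : IsHom Q X q1 := hcomp (hp1 Y' X) (hp1 X Y)
  have h2 : IsHom Q Y q2 := hcomp (hp1 Y' X) (hp2 X Y)
  have h3 : IsHom Q X q3 := hp2 Y' X
  set π : Q.H →ₗ[ℚ] P.H := a.comp q2 + b.comp q3 with hπ
  have hπh : IsHom Q P π := hadd (hcomp h2 ha) (hcomp h3 hb)
  set f2 : Q.H [⋀^Fin 2]→ₗ[ℚ] ℚ := E2.compLinearMap (q1 + q3) +
    (-1 : ℚ) • (E2.compLinearMap q1 + E2.compLinearMap q3) with hf2
  have hf2a : ∀ u : Fin 2 → Q.H, f2 u = ω (q1 (u 0)) (q3 (u 1)) + ω (q3 (u 0)) (q1 (u 1)) := by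
    intro u
    rw [hf2]
    simp only [AlternatingMap.add_apply, AlternatingMap.smul_apply, AlternatingMap.compLinearMap_apply,
      hω, LinearMap.add_apply, map_add, smul_eq_mul]
    ring
  set f' : Q.H [⋀^Fin n ⊕ Fin i]→ₗ[ℚ] ℚ := τ.compLinearMap π with hf'
  have AE := 𝒜.divisor (κ := Fin 2) (by simp) E2 hE2
  have A2 : 𝒜.A Q (Fin 2) f2 := 𝒜.add _ _ (𝒜.pull (q1 + q3) (hadd h1 h3) E2 AE)
    (𝒜.smul _ _ (𝒜.add _ _ (𝒜.pull q1 h1 E2 AE) (𝒜.pull q3 h3 E2 AE)))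
  have A' : 𝒜.A Q (Fin n ⊕ Fin i) f' := 𝒜.pull π hπh τ hτ
  have AH : 𝒜.A Q (Fin 2 ⊕ (Fin n ⊕ Fin i)) (wdg f2 f') :=
    𝒜.cup f2 f' A2 A' (wdg f2 f') (fun v => wdg_apply f2 f' v)
  have AT : 𝒜.A Q (Fin (n + 1) ⊕ Fin (i + 1)) ((wdg f2 f').domDomCongr (eL n i)) :=
    𝒜.reindex (eL n i) _ AH
  set y' : Fin (n + 1) → Y'.H := Fin.cons (i1 X Y y0) (fun k => i2 X Y (y k)) with hy'
  obtain ⟨c, hc, hmain⟩ := wedge_eval (W := Q.H) (eL n i)
  have key : ∀ x : Fin (i + 1) → X.H, (wdg f2 f').domDomCongr (eL n i)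
      (Sum.elim (fun k => i1 Y' X (y' k)) fun l => i2 Y' X (x l)) = c * g x := by
    intro x
    set v : Fin (n + 1) ⊕ Fin (i + 1) → Q.H :=
      Sum.elim (fun k => i1 Y' X (y' k)) fun l => i2 Y' X (x l) with hv
    have v1 : q1 (v (Sum.inl 0)) = y0 := rfl
    have v2 : ∀ k : Fin n, q1 (v (Sum.inl k.succ)) = 0 := fun k => rfl
    have v3 : ∀ l, q1 (v (Sum.inr l)) = 0 := fun l => rfl
    have v4 : ∀ k, q3 (v (Sum.inl k)) = 0 := fun k => rfl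
    have v5 : ∀ l, q3 (v (Sum.inr l)) = x l := fun l => rfl
    have v6 : ∀ k : Fin n, q2 (v (Sum.inl k.succ)) = y k := fun k => rfl
    have v7 : ∀ l, q2 (v (Sum.inr l)) = 0 := fun l => rfl
    have w1 : ∀ A, q1 (v A) ≠ 0 → A = Sum.inl 0 := by
      rintro (k | l) hA
      · refine Fin.cases (fun _ => rfl) (fun k hA => absurd (v2 k) hA) k hA
      · exact absurd (v3 l) hA
    have w2 : ∀ A, q3 (v A) ≠ 0 → ∃ p, A = Sum.inr p := by
      rintro (k | l) hA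
      · exact absurd (v4 k) hA
      · exact ⟨l, rfl⟩
    have h := hmain f2 f' v (by
      intro σ hσ
      rw [hf2a] at hσ
      have hor : ω (q1 (v (eL n i (σ (Sum.inl 0))))) (q3 (v (eL n i (σ (Sum.inl 1))))) ≠ 0 ∨
          ω (q3 (v (eL n i (σ (Sum.inl 0))))) (q1 (v (eL n i (σ (Sum.inl 1))))) ≠ 0 := by
        by_contra hcon
        push Not at hcon
        exact hσ (by rw [hcon.1, hcon.2, add_zero])
      rcases hor with hor | hor
      · have a1 : eL n i (σ (Sum.inl 0)) = Sum.inl 0 := w1 _ fun h0 => hor (by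
          rw [h0, map_zero, LinearMap.zero_apply])
        obtain ⟨p, a2⟩ := w2 (eL n i (σ (Sum.inl 1))) fun h0 => hor (by rw [h0, map_zero])
        refine ⟨swap 0 p, fun s => ⟨s, ?_⟩⟩
        fin_cases s
        · exact a1
        · show eL n i (σ (Sum.inl 1)) = Sum.inr (swap 0 p 0)
          rw [a2, swap_apply_left]
      · have a1 : eL n i (σ (Sum.inl 1)) = Sum.inl 0 := w1 _ fun h0 => hor (by
          rw [h0, map_zero])
        obtain ⟨p, a2⟩ := w2 (eL n i (σ (Sum.inl 0))) fun h0 => hor (by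
          rw [h0, map_zero, LinearMap.zero_apply])
        refine ⟨swap 0 p, fun s => ?_⟩
        fin_cases s
        · refine ⟨1, ?_⟩
          show eL n i (σ (Sum.inl 0)) = Sum.inr (swap 0 p 0)
          rw [a2, swap_apply_left]
        · exact ⟨0, a1⟩)
    have e1 : (wdg f2 f').domDomCongr (eL n i) v = wdg f2 f' (fun k => v (eL n i k)) := rfl
    rw [e1, h, hg x]
    congr 1
    refine Finset.sum_congr rfl fun ρ _ => ?_
    congr 1
    congr 1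
    · rw [hf2a]
      have b1 : q1 (v (Perm.sumCongr 1 ρ (eL n i (Sum.inl 0)))) = y0 := rfl
      have b2 : q3 (v (Perm.sumCongr 1 ρ (eL n i (Sum.inl 1)))) = x (ρ 0) := rfl
      have b3 : q3 (v (Perm.sumCongr 1 ρ (eL n i (Sum.inl 0)))) = 0 := rfl
      rw [b1, b2, b3, ω.map_zero, LinearMap.zero_apply, add_zero]
    · rw [hf', AlternatingMap.compLinearMap_apply]
      congr 1
      funext k
      rcases k with k | l
      · show a (q2 (v (Sum.inl k.succ))) + b (q3 (v (Sum.inl k.succ))) = a (y k)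
        rw [v6, v4, map_zero, add_zero]
      · show a (q2 (v (Sum.inr (ρ l.succ)))) + b (q3 (v (Sum.inr (ρ l.succ)))) = b (x (ρ l.succ))
        rw [v7, v5, map_zero, zero_add]
  have h1 : c • g ∈ Cor 𝒜 X (n + 1) (i + 1) := by
    refine Submodule.subset_span ⟨Y', Q, i1 Y' X, i2 Y' X, (wdg f2 f').domDomCongr (eL n i), y',
      hi1 Y' X, hi2 Y' X, bij12 Y' X, AT, fun x => ?_⟩
    rw [key x, AlternatingMap.smul_apply, smul_eq_mul]
  have h2 := Submodule.smul_mem _ c⁻¹ h1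
  rwa [smul_smul, inv_mul_cancel₀ hc, one_smul] at h2

section lamw

variable {H : Type} [AddCommGroup H] [Module ℚ H]

/-- the product of a linear form and an alternating form -/
noncomputable def lamw {i : ℕ} (μ : H →ₗ[ℚ] ℚ) (f : H [⋀^Fin i]→ₗ[ℚ] ℚ) :
    H [⋀^Fin (i + 1)]→ₗ[ℚ] ℚ :=
  MultilinearMap.alternatization (LinearMap.uncurryLeft (μ.smulRight f.toMultilinearMap))

theorem lamw_apply {i : ℕ} (μ : H →ₗ[ℚ] ℚ) (f : H [⋀^Fin i]→ₗ[ℚ] ℚ) (x : Fin (i + 1) → H) :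
    lamw μ f x = ∑ σ : Equiv.Perm (Fin (i + 1)), ((Equiv.Perm.sign σ : ℤ) : ℚ) *
        (μ (x (σ 0)) * f (fun l => x (σ l.succ))) := by
  rw [lamw, MultilinearMap.alternatization_apply]
  refine Finset.sum_congr rfl fun σ _ => ?_
  rw [MultilinearMap.domDomCongr_apply, Units.smul_def, zsmul_eq_mul]
  rfl

end lamw

end Pool.Agent.T2h99.V15
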