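import Pool.Agent.Z15.V.Stm
import Pool.Agent.T2h66.Q15.DIV
import Pool.Agent.R915.H1
import Pool.Agent.T2h99.V15.CoreL

/-!
Products with linear forms (task V_LAM of helper15).
-/

set_option autoImplicit false

namespace Pool.Agent.T2h99.V15

open Module Equiv Pool.Agent.Y90 Pool.Agent.R915
open Pool.Agent.N178.HX (Cor)
open Pool.Agent.H204R3.CM (IsHodge)
open Pool.Agent.T2h66.Q15.DIV (BB BB_apply hodge_BB bilin)

theorem t_V_LAM : Pool.Agent.Z15.V.V_LAM := by
  intro 𝒜 X n i f hf μ g hg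
  have hgf : g = lamw μ f := by
    ext x
    rw [hg, lamw_apply]
  rw [hgf]
  clear hg hgf g
  -- the polarization
  obtain ⟨E, hE⟩ := X.pol
  obtain ⟨ω, hω, hanti, hnd⟩ := pol_form X hE
  have hbil : ∃ B : X.H →ₗ[ℚ] X.H →ₗ[ℚ] ℚ, ∀ v w, B v w = E v w := ⟨ω, hω⟩
  have hid : IsHom X X LinearMap.id := ⟨LinearMap.id, fun v => rfl⟩
  have hodge := hodge_BB hE hbil LinearMap.id hid
  have hω2 : ∀ v : Fin 2 → X.H, BB E hbil LinearMap.id v = ((2 : ℚ) • ω) (v 0) (v 1) := by
    intro v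
    rw [BB_apply]
    simp only [LinearMap.id_apply, LinearMap.smul_apply, smul_eq_mul]
    rw [← hω, ← hω, hanti (v 1) (v 0)]
    ring
  obtain ⟨y0, hy0⟩ := form_surj ω hnd ⊤ (((-(1 / 2) : ℚ) • μ).domRestrict ⊤)
  have hμ : ∀ w, ((2 : ℚ) • ω) y0 w = μ w := by
    intro w
    have h1 := hy0 ⟨w, trivial⟩
    simp only [LinearMap.domRestrict_apply, LinearMap.smul_apply, smul_eq_mul] at h1 ⊢
    rw [hanti y0 w, h1]
    ring
  induction hf using Submodule.span_induction with
  | mem f hf =>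
    obtain ⟨Y, P, a, b, τ, y, ha, hb, -, hτ, h⟩ := hf
    refine lam_gen 𝒜 X n i _ hodge _ hω2 y0 Y P a b τ y ha hb hτ _ fun x => ?_
    rw [lamw_apply]
    refine Finset.sum_congr rfl fun σ _ => ?_
    rw [h, hμ]
  | zero =>
    have : lamw μ (0 : X.H [⋀^Fin i]→ₗ[ℚ] ℚ) = 0 := by
      ext x
      rw [lamw_apply]
      simp
    rw [this]
    exact Submodule.zero_mem _
  | add f f' _ _ h1 h2 =>
    have : lamw μ (f + f') = lamw μ f + lamw μ f' := by
      ext x
      rw [AlternatingMap.add_apply, lamw_apply, lamw_apply, lamw_apply, ← Finset.sum_add_distrib]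
      refine Finset.sum_congr rfl fun σ _ => ?_
      rw [AlternatingMap.add_apply]
      ring
    rw [this]
    exact Submodule.add_mem _ h1 h2
  | smul c f _ h1 =>
    have : lamw μ (c • f) = c • lamw μ f := by
      ext x
      rw [AlternatingMap.smul_apply, lamw_apply, lamw_apply, smul_eq_mul, Finset.mul_sum]
      refine Finset.sum_congr rfl fun σ _ => ?_
      rw [AlternatingMap.smul_apply, smul_eq_mul]
      ring
    rw [this]
    exact Submodule.smul_mem _ _ h1

end Pool.Agent.T2h99.V15
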